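import Pool.Agent.Y586.OD.Defs
import Pool.Agent.H547S1.T_PAF
import Pool.Agent.H547S1.T_TMO
import Pool.Agent.H547S1.T_NEG
import Pool.Agent.H547S1.T_GL3
import Pool.Agent.H547R9.T_PA2

/-!
# No public-key encryption with decryption over conjunctions or disjunctions
-/

set_option autoImplicit false

namespace Pool.Agent.Y658.OD

open Pool.Agent.H547R6 Pool.Agent.H547R7 Pool.Agent.H547R8 Pool.Agent.H547R9 Pool.Agent.NPC
open Pool.Agent.H583R2 Pool.Agent.H545R2.KS Pool.Agent.H547S1 Pool.Agent.Y586.OD

/-! ### probabilities -/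

theorem pr_eqv {Ω Ω' : Type} [Fintype Ω] [Fintype Ω'] (e : Ω ≃ Ω') (p : Ω' → Bool) :
    pr (fun w => p (e w)) = pr p := by
  unfold pr
  rw [Fintype.card_congr e]
  congr 2
  refine Finset.card_bij (fun w _ => e w) ?_ ?_ ?_
  · intro w hw
    simpa using hw
  · intro a _ b _ h
    exact e.injective h
  · intro y hy
    exact ⟨e.symm y, by simpa using hy, by simp⟩

theorem pr_prod {K X : Type} [Fintype K] [Fintype X] (p : K × X → Bool) :
    pr p = (∑ k, pr (fun x => p (k, x))) / Fintype.card K := by
  have h : (Finset.univ.filter fun w => p w = true).card =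
      ∑ k, (Finset.univ.filter fun x => p (k, x) = true).card := by
    rw [Finset.card_filter, Fintype.sum_prod_type]
    refine Finset.sum_congr rfl fun k _ => ?_
    rw [Finset.card_filter]
  unfold pr
  rw [← Finset.sum_div, div_div, Fintype.card_prod, h]
  push_cast
  rw [mul_comm (Fintype.card X : ℝ)]

theorem pr_le_fib {K X : Type} [Fintype K] [Nonempty K] [Fintype X] (p : K × X → Bool) (c : ℝ)
    (h : ∀ k, pr (fun x => p (k, x)) ≤ c) : pr p ≤ c := by
  rw [pr_prod, div_le_iff₀ (by exact_mod_cast Fintype.card_pos)]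
  calc ∑ k, pr (fun x => p (k, x)) ≤ ∑ _k : K, c := Finset.sum_le_sum fun k _ => h k
    _ = c * Fintype.card K := by rw [Finset.sum_const, Finset.card_univ, nsmul_eq_mul, mul_comm]

theorem pr_ex {Ω : Type} [Fintype Ω] {m : ℕ} (q : Fin m → Ω → Bool) :
    pr (fun x => decide (∃ j, q j x = true)) ≤ ∑ j, pr (q j) := by
  classical
  unfold pr
  rw [← Finset.sum_div]
  apply div_le_div_of_nonneg_right _ (Nat.cast_nonneg _)
  have h : (Finset.univ.filter fun x => decide (∃ j, q j x = true) = true) ⊆
      Finset.univ.biUnion fun j => Finset.univ.filter fun x => q j x = true := by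
    intro x hx
    simpa using hx
  have h2 := (Finset.card_le_card h).trans Finset.card_biUnion_le
  exact_mod_cast h2

theorem pr_coord {K Ω : Type} [Fintype K] [Fintype Ω] [Nonempty Ω] {m : ℕ} (j : Fin m)
    (f : K × Ω → Bool) : pr (fun w : K × Ω × (Fin m → Ω) => f (w.1, w.2.2 j)) = pr f := by
  let e : K × Ω × (Fin m → Ω) ≃ K × Ω × (Ω × ({i : Fin m // i ≠ j} → Ω)) :=
    { toFun := fun w => (w.1, w.2.2 j, (w.2.1, fun i => w.2.2 i.1))
      invFun := fun v => (v.1, v.2.2.1, fun i => if h : i = j then v.2.1 else v.2.2.2 ⟨i, h⟩)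
      left_inv := by
        rintro ⟨k, x, W⟩
        simp only [Prod.mk.injEq, true_and]
        funext i
        by_cases h : i = j
        · rw [dif_pos h, h]
        · rw [dif_neg h]
      right_inv := by
        rintro ⟨k, x, y, W⟩
        simp only [Prod.mk.injEq, true_and]
        refine ⟨by simp, ?_⟩
        funext i
        rw [dif_neg i.2] }
  have h1 := TMO.pr_third (γ := Ω × ({i : Fin m // i ≠ j} → Ω)) f
  rw [← h1, ← pr_eqv e]
  rfl

theorem pr_coins {K X : Type} [Fintype K] [Fintype X] (T m E : ℕ) (hT : T = m * E)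
    (F : K → X → (ℕ → List Bool) → Bool) :
    pr (fun w : K × X × (Fin T → Bool) =>
      F w.1 w.2.1 (fun j => ((List.ofFn w.2.2).drop (j * E)).take E)) =
    pr (fun w : K × X × (Fin m → Fin E → Bool) =>
      F w.1 w.2.1 (fun j => if h : j < m then List.ofFn (w.2.2 ⟨j, h⟩) else [])) := by
  subst hT
  let e0 : (Fin (m * E) → Bool) ≃ (Fin m → Fin E → Bool) :=
    { toFun := fun w j i => w (finProdFinEquiv (j, i))
      invFun := fun v x => v (finProdFinEquiv.symm x).1 (finProdFinEquiv.symm x).2
      left_inv := fun w => by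
        funext x
        show w (finProdFinEquiv (finProdFinEquiv.symm x)) = w x
        rw [Equiv.apply_symm_apply]
      right_inv := fun v => by
        funext j i
        show v (finProdFinEquiv.symm (finProdFinEquiv (j, i))).1
          (finProdFinEquiv.symm (finProdFinEquiv (j, i))).2 = v j i
        rw [Equiv.symm_apply_apply] }
  let e : K × X × (Fin (m * E) → Bool) ≃ K × X × (Fin m → Fin E → Bool) :=
    (Equiv.refl K).prodCongr ((Equiv.refl X).prodCongr e0)
  rw [← pr_eqv e]
  congr 1
  funext w
  have h : (fun j => ((List.ofFn w.2.2).drop (j * E)).take E) =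
      fun j => if h : j < m then List.ofFn ((e w).2.2 ⟨j, h⟩) else [] := by
    funext j
    by_cases hj : j < m
    · rw [dif_pos hj]
      have hjE : j * E + E ≤ m * E := by
        calc j * E + E = (j + 1) * E := by ring
          _ ≤ m * E := Nat.mul_le_mul_right _ hj
      apply List.ext_getElem
      · rw [List.length_take, List.length_drop, List.length_ofFn, List.length_ofFn]
        omega
      · intro i h1 h2
        rw [List.getElem_take, List.getElem_drop, List.getElem_ofFn, List.getElem_ofFn]
        show w.2.2 _ = w.2.2 (finProdFinEquiv (⟨j, hj⟩, _))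
        refine congrArg w.2.2 (Fin.ext ?_)
        show j * E + i = i + E * j
        ring
    · rw [dif_neg hj, List.drop_eq_nil_of_le, List.take_nil]
      rw [List.length_ofFn]
      exact Nat.mul_le_mul_right _ (not_lt.1 hj)
  rw [h]
  rfl

/-! ### the adversary -/

/-- rejection, in terms of the blocks of coins -/
def rejB (S : Scheme) (b : Bool) (m n : ℕ) (pk c : List Bool) (R : ℕ → List Bool) : Bool :=
  (List.range (S.len.eval n)).any fun i => !(c.getD i false == b) &&
    (List.range m).all fun j => (PAF_ct S n pk b (R j)).getD i false == b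

/-- rejection -/
def rej (S : Scheme) (b : Bool) (m n : ℕ) (pk c w : List Bool) : Bool :=
  rejB S b m n pk c fun j => (w.drop (j * S.e.eval n)).take (S.e.eval n)

/-- the adversary -/
def Adv (S : Scheme) (b : Bool) (M : Polynomial ℕ) (z : List Bool) : List Bool :=
  if rej S b (M.eval (spl z).1.length) (spl z).1.length (spl (spl z).2).1
    (spl (spl (spl z).2).2).1 (spl (spl (spl z).2).2).2 then [] else [true]

theorem Adv_eq (S : Scheme) (b : Bool) (M : Polynomial ℕ) (n : ℕ) (pk c w : List Bool) :
    decide (Adv S b M (c4 (ones n) pk c w) = [true]) = !rej S b (M.eval n) n pk c w := by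
  unfold Adv c4
  rw [spl_pairBits, spl_pairBits, spl_pairBits]
  have : (ones n).length = n := List.length_replicate
  simp only [this]
  cases rej S b (M.eval n) n pk c w <;> simp

theorem Adv_poly {S : Scheme} (hS : PolyTime S.enc) (b : Bool) (M : Polynomial ℕ) :
    PolyTime (Adv S b M) := by
  apply polyTime_of_pf
  unfold Adv rej rejB
  have h1 : PF (fun z : List Bool => spl z) := PF.spl PF.id
  have h2 : PF (fun z : List Bool => spl (spl z).2) := PF.spl (PF.snd' h1)
  have h3 : PF (fun z : List Bool => spl (spl (spl z).2).2) := PF.spl (PF.snd' h2)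
  have hn : PF (fun z : List Bool => (spl z).1.length) := PF.length (PF.fst' h1)
  have hpk : PF (fun z : List Bool => (spl (spl z).2).1) := PF.fst' h2
  have hc : PF (fun z : List Bool => (spl (spl (spl z).2).2).1) := PF.fst' h3
  have hw : PF (fun z : List Bool => (spl (spl (spl z).2).2).2) := PF.snd' h3
  refine PF.ite ?_ (PF.const []) (PF.const [true])
  refine PF.any (f := fun (z : List Bool) (i : ℕ) =>
    !((spl (spl (spl z).2).2).1.getD i false == b) &&
      (List.range (M.eval (spl z).1.length)).all fun j =>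
        (PAF_ct S (spl z).1.length (spl (spl z).2).1 b
          (((spl (spl (spl z).2).2).2.drop (j * S.e.eval (spl z).1.length)).take
            (S.e.eval (spl z).1.length))).getD i false == b)
    (PF.range (pf_eval hn S.len)) ?_
  refine PF.and (PF.not (PF.beqBool (PF.listGetD PF.snd (hc.comp PF.fst) (PF.const false))
    (PF.const b))) ?_
  refine PF.all (f := fun (p : List Bool × ℕ) (j : ℕ) =>
    (PAF_ct S (spl p.1).1.length (spl (spl p.1).2).1 b
      (((spl (spl (spl p.1).2).2).2.drop (j * S.e.eval (spl p.1).1.length)).take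
        (S.e.eval (spl p.1).1.length))).getD p.2 false == b)
    (PF.range (pf_eval (hn.comp PF.fst) M)) ?_
  have g1 : PF (fun p : (List Bool × ℕ) × ℕ => (spl p.1.1).1.length) :=
    hn.comp (PF.fst.comp PF.fst)
  have g2 : PF (fun p : (List Bool × ℕ) × ℕ => S.e.eval (spl p.1.1).1.length) := pf_eval g1 S.e
  refine PF.beqBool (PF.listGetD (PF.snd.comp PF.fst) ?_ (PF.const false)) (PF.const b)
  refine PAF_pf_ct hS g1 (hpk.comp (PF.fst.comp PF.fst)) b ?_
  exact PF.take g2 (PF.drop (PF.mul PF.snd g2) (hw.comp (PF.fst.comp PF.fst)))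

/-! ### blocks -/

/-- the blocks of coins -/
def blk {m E : ℕ} (W : Fin m → Fin E → Bool) (j : ℕ) : List Bool :=
  if h : j < m then List.ofFn (W ⟨j, h⟩) else []

theorem acp_eq (S : Scheme) (b b' : Bool) (M : Polynomial ℕ) (n : ℕ) :
    S.acp (Adv S b M) (M * S.e) n b' =
      pr (fun w : (Fin (S.g.eval n) → Bool) × (Fin (S.e.eval n) → Bool) ×
        (Fin (M.eval n) → Fin (S.e.eval n) → Bool) =>
        !rejB S b (M.eval n) n (S.pk (pairBits (ones n) (List.ofFn w.1)))
          (S.ct n (List.ofFn w.1) b' (List.ofFn w.2.1)) (blk w.2.2)) := by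
  unfold Scheme.acp
  simp only [Adv_eq]
  exact pr_coins (K := Fin (S.g.eval n) → Bool) (X := Fin (S.e.eval n) → Bool)
    ((M * S.e).eval n) (M.eval n) (S.e.eval n) Polynomial.eval_mul
    (fun s r R => !rejB S b (M.eval n) n (S.pk (pairBits (ones n) (List.ofFn s)))
      (S.ct n (List.ofFn s) b' (List.ofFn r)) R)

theorem rejB_iff (S : Scheme) (b : Bool) (m n : ℕ) (pk c : List Bool) (R : ℕ → List Bool) :
    rejB S b m n pk c R = true ↔ ∃ i, i < S.len.eval n ∧ c.getD i false ≠ b ∧
      ∀ j, j < m → (PAF_ct S n pk b (R j)).getD i false = b := by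
  unfold rejB
  rw [List.any_eq_true]
  simp only [List.mem_range, Bool.and_eq_true, Bool.not_eq_true', beq_eq_false_iff_ne, ne_eq,
    List.all_eq_true, beq_iff_eq]

/-- exchangeability -/
theorem exch (S : Scheme) (b : Bool) (m n : ℕ) (s : List Bool)
    (z : Fin (m + 1) → Fin (S.e.eval n) → Bool) :
    (Finset.univ.filter fun i => rejB S b m n (S.pk (pairBits (ones n) s))
      (S.ct n s b (List.ofFn (z i))) (blk fun j => z (i.succAbove j)) = true).card ≤
      S.len.eval n := by
  classical
  have h : ∀ i : Fin (m + 1), rejB S b m n (S.pk (pairBits (ones n) s))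
      (S.ct n s b (List.ofFn (z i))) (blk fun j => z (i.succAbove j)) = true →
      ∃ l, l < S.len.eval n ∧ (S.ct n s b (List.ofFn (z i))).getD l false ≠ b ∧
        ∀ i', i' ≠ i → (S.ct n s b (List.ofFn (z i'))).getD l false = b := by
    intro i hi
    obtain ⟨l, hl, h1, h2⟩ := (rejB_iff _ _ _ _ _ _ _).1 hi
    refine ⟨l, hl, h1, fun i' hi' => ?_⟩
    obtain ⟨j, hj⟩ := Fin.exists_succAbove_eq hi'
    have h3 := h2 j.1 j.2
    unfold blk at h3
    rw [dif_pos j.2, Fin.eta] at h3
    rw [← hj]
    exact h3
  let lf : Fin (m + 1) → ℕ := fun i =>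
    if hi : rejB S b m n (S.pk (pairBits (ones n) s))
      (S.ct n s b (List.ofFn (z i))) (blk fun j => z (i.succAbove j)) = true then
      (h i hi).choose else 0
  have hlf : ∀ i, (hi : rejB S b m n (S.pk (pairBits (ones n) s))
      (S.ct n s b (List.ofFn (z i))) (blk fun j => z (i.succAbove j)) = true) →
      lf i < S.len.eval n ∧ (S.ct n s b (List.ofFn (z i))).getD (lf i) false ≠ b ∧
        ∀ i', i' ≠ i → (S.ct n s b (List.ofFn (z i'))).getD (lf i) false = b := by
    intro i hi
    have h1 : lf i = (h i hi).choose := dif_pos hi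
    rw [h1]
    exact (h i hi).choose_spec
  calc _ ≤ (Finset.range (S.len.eval n)).card := by
        apply Finset.card_le_card_of_injOn lf
        · intro i hi
          rw [Finset.mem_coe, Finset.mem_filter] at hi
          rw [Finset.mem_coe, Finset.mem_range]
          exact (hlf i hi.2).1
        · intro i hi i' hi' he
          rw [Finset.mem_coe, Finset.mem_filter] at hi hi'
          by_contra hne
          have h1 := (hlf i hi.2).2.2 i' (Ne.symm hne)
          have h2 := (hlf i' hi'.2).2.1
          rw [← he] at h2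
          exact h2 h1
    _ = S.len.eval n := Finset.card_range _

/-- the encryptions of `b` are accepted with probability at least `3/4` -/
theorem acp_b (hE : S_EXC) (S : Scheme) (b : Bool) (n : ℕ) :
    3 / 4 ≤ S.acp (Adv S b (4 * S.len + 4)) ((4 * S.len + 4) * S.e) n b := by
  rw [acp_eq]
  have hm : (4 * S.len + 4).eval n = 4 * S.len.eval n + 4 := by simp
  rw [hm]
  rw [← TMO.pr_not']
  have h1 : pr (fun w : (Fin (S.g.eval n) → Bool) × (Fin (S.e.eval n) → Bool) ×
        (Fin (4 * S.len.eval n + 4) → Fin (S.e.eval n) → Bool) =>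
        rejB S b (4 * S.len.eval n + 4) n (S.pk (pairBits (ones n) (List.ofFn w.1)))
          (S.ct n (List.ofFn w.1) b (List.ofFn w.2.1)) (blk w.2.2)) ≤ 1 / 4 := by
    apply pr_le_fib
    intro s
    have h2 := hE (Fin (S.e.eval n) → Bool) (4 * S.len.eval n + 4) (S.len.eval n)
      (fun r W => rejB S b (4 * S.len.eval n + 4) n (S.pk (pairBits (ones n) (List.ofFn s)))
          (S.ct n (List.ofFn s) b (List.ofFn r)) (blk W)) (fun z => exch S b _ n _ z)
    refine h2.trans ?_
    push_cast
    rw [div_le_iff₀ (by positivity)]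
    linarith
  linarith

/-! ### the encryptions of the other bit -/

theorem ofFn_vec {L : ℕ} {c : List Bool} (hc : c.length = L) : List.ofFn (vec L c) = c := by
  apply List.ext_getElem
  · rw [List.length_ofFn, hc]
  · intro i h1 h2
    rw [List.getElem_ofFn]
    unfold vec
    rw [List.getD_eq_getElem _ _ h2]

/-- an encryption of `!b` is rejected if everything is decrypted correctly -/
theorem det {L m : ℕ} (hm : 1 ≤ m) (b : Bool) (dec : List Bool → List Bool)
    (hcl : ∀ u u' : Fin L → Bool,
      (decide (dec (List.ofFn fun i => (u i && u' i) == b) = [true]) == b) =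
      ((decide (dec (List.ofFn fun i => u i == b) = [true]) == b) &&
        (decide (dec (List.ofFn fun i => u' i == b) = [true]) == b)))
    (C : ℕ → List Bool) (c : List Bool) (hC : ∀ j, (C j).length = L) (hc : c.length = L)
    (h1 : ∀ j, j < m → dec (C j) = [b]) (h2 : dec c = [!b]) :
    ∃ i, i < L ∧ c.getD i false ≠ b ∧ ∀ j, j < m → (C j).getD i false = b := by
  by_contra hcon
  push Not at hcon
  set G : BF L := fun u => decide (dec (List.ofFn fun i => u i == b) = [true]) == b with hG
  have hval : ∀ x : List Bool, x.length = L → G (fun i => vec L x i == b) =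
      (decide (dec x = [true]) == b) := by
    intro x hx
    have h3 : (fun i => (vec L x i == b) == b) = vec L x := by
      funext i
      generalize vec L x i = y
      cases y <;> cases b <;> rfl
    simp only [hG]
    rw [h3, ofFn_vec hx]
  have hCv : ∀ j, j < m → G (fun i => vec L (C j) i == b) = true := by
    intro j hj
    rw [hval _ (hC j), h1 j hj]
    cases b <;> rfl
  have hcv : G (fun i => vec L c i == b) = false := by
    rw [hval _ hc, h2]
    cases b <;> rfl
  have hone : G (fun _ => true) = true :=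
    PA2_mono hcl (v := fun _ => true) (fun _ _ => rfl) (hCv 0 (by omega))
  have h4 : G (fun i => vec L c i == b) = true := by
    rw [PA2_iff hcl hone]
    intro i hi
    by_contra h5
    have h6 : c.getD i.1 false ≠ b := by
      intro h7
      apply h5
      unfold vec
      rw [h7, beq_self_eq_true]
    obtain ⟨j, hj, h8⟩ := hcon i.1 i.2 h6
    have h9 := (PA2_iff hcl hone _).1 (hCv j hj) i hi
    apply h8
    unfold vec at h9
    exact beq_iff_eq.1 h9
  rw [hcv] at h4
  exact Bool.noConfusion h4

/-- the encryptions of `!b` are accepted with small probability -/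
theorem acp_nb (S : Scheme) (b : Bool) (n : ℕ)
    (hcl : ∀ s : List Bool, s.length = S.g.eval n → ∀ u u' : Fin (S.len.eval n) → Bool,
      (decide (S.dec (c3 (ones n) (S.sk (pairBits (ones n) s))
        (List.ofFn fun i => (u i && u' i) == b)) = [true]) == b) =
      ((decide (S.dec (c3 (ones n) (S.sk (pairBits (ones n) s))
        (List.ofFn fun i => u i == b)) = [true]) == b) &&
      (decide (S.dec (c3 (ones n) (S.sk (pairBits (ones n) s))
        (List.ofFn fun i => u' i == b)) = [true]) == b))) :
    S.acp (Adv S b (4 * S.len + 4)) ((4 * S.len + 4) * S.e) n (!b) ≤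
      S.err n (!b) + (((4 * S.len + 4).eval n : ℕ) : ℝ) * S.err n b := by
  rw [acp_eq]
  have hm : 1 ≤ (4 * S.len + 4).eval n := by simp
  generalize (4 * S.len + 4).eval n = m at hm
  let f : Bool → (Fin (S.g.eval n) → Bool) × (Fin (S.e.eval n) → Bool) → Bool := fun b' w =>
    decide (S.dec (c3 (ones n) (S.sk (pairBits (ones n) (List.ofFn w.1)))
      (S.ct n (List.ofFn w.1) b' (List.ofFn w.2))) ≠ [b'])
  have hf : ∀ b', S.err n b' = pr (f b') := fun b' => rfl
  calc _ ≤ pr (fun w : (Fin (S.g.eval n) → Bool) × (Fin (S.e.eval n) → Bool) ×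
        (Fin m → Fin (S.e.eval n) → Bool) => f (!b) (w.1, w.2.1) ||
          decide (∃ j, f b (w.1, w.2.2 j) = true)) := by
        apply TMO.pr_le_of
        rintro ⟨s, r, W⟩ hw
        by_contra hcon
        rw [Bool.not_eq_true, Bool.or_eq_false_iff] at hcon
        obtain ⟨h1, h2'⟩ := hcon
        have h2 : ∀ j, ¬ f b (s, W j) = true := fun j hj => of_decide_eq_false h2' ⟨j, hj⟩
        have h3 : S.dec (c3 (ones n) (S.sk (pairBits (ones n) (List.ofFn s)))
            (S.ct n (List.ofFn s) (!b) (List.ofFn r))) = [!b] := by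
          simpa [f] using h1
        have h4 : ∀ j : Fin m, S.dec (c3 (ones n) (S.sk (pairBits (ones n) (List.ofFn s)))
            (S.ct n (List.ofFn s) b (List.ofFn (W j)))) = [b] := by
          intro j
          have := h2 j
          simpa [f] using this
        have h5 := det hm b (fun x => S.dec (c3 (ones n)
          (S.sk (pairBits (ones n) (List.ofFn s))) x)) (hcl (List.ofFn s) (by simp))
          (fun j => S.ct n (List.ofFn s) b (blk W j)) (S.ct n (List.ofFn s) (!b) (List.ofFn r))
          (fun j => PAF_len_fit _ _) (PAF_len_fit _ _) (by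
            intro j hj
            have h6 : blk W j = List.ofFn (W ⟨j, hj⟩) := dif_pos hj
            rw [h6]
            exact h4 ⟨j, hj⟩) h3
        have h7 : rejB S b m n (S.pk (pairBits (ones n) (List.ofFn s)))
            (S.ct n (List.ofFn s) (!b) (List.ofFn r)) (blk W) = true :=
          (rejB_iff _ _ _ _ _ _ _).2 h5
        simp only [h7] at hw
        exact Bool.noConfusion hw
    _ ≤ pr (fun w : (Fin (S.g.eval n) → Bool) × (Fin (S.e.eval n) → Bool) ×
        (Fin m → Fin (S.e.eval n) → Bool) => f (!b) (w.1, w.2.1)) +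
        pr (fun w : (Fin (S.g.eval n) → Bool) × (Fin (S.e.eval n) → Bool) ×
        (Fin m → Fin (S.e.eval n) → Bool) => decide (∃ j, f b (w.1, w.2.2 j) = true)) :=
        TMO.pr_or_le _ _
    _ ≤ pr (f (!b)) + ∑ _j : Fin m, pr (f b) := by
        apply add_le_add
        · exact (TMO.pr_third (f (!b))).le
        · refine (pr_ex _).trans ?_
          exact Finset.sum_le_sum fun j _ => (pr_coord j (f b)).le
    _ = _ := by
        rw [Finset.sum_const, Finset.card_univ, Fintype.card_fin, nsmul_eq_mul, hf, hf]

theorem core (hE : S_EXC) (S : Scheme) (hP : IsPke S) (b : Bool)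
    (hcl : ∀ n, 1 ≤ n → ∀ s : List Bool, s.length = S.g.eval n →
      ∀ u u' : Fin (S.len.eval n) → Bool,
      (decide (S.dec (c3 (ones n) (S.sk (pairBits (ones n) s))
        (List.ofFn fun i => (u i && u' i) == b)) = [true]) == b) =
      ((decide (S.dec (c3 (ones n) (S.sk (pairBits (ones n) s))
        (List.ofFn fun i => u i == b)) = [true]) == b) &&
      (decide (S.dec (c3 (ones n) (S.sk (pairBits (ones n) s))
        (List.ofFn fun i => u' i == b)) = [true]) == b))) : False := by
  obtain ⟨⟨-, -, henc, -⟩, herr, hsec⟩ := hP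
  obtain ⟨hadd, hdom, hmul, hpoly, -, hone⟩ := t_NEG
  have h5 := hsec (Adv S b (4 * S.len + 4)) ((4 * S.len + 4) * S.e) (Adv_poly henc b _)
  have h6 := hadd _ _ (hmul _ (if b = true then 1 else -1) h5)
    (hadd _ _ (herr (!b)) (hpoly _ (4 * S.len + 4) (herr b)))
  refine hone (3 / 4) (by norm_num) (hdom (fun _ => 3 / 4) _ 1 h6 fun n hn => ?_)
  have h7 := acp_b hE S b n
  have h8 := acp_nb S b n (hcl n hn)
  rw [abs_of_pos (by norm_num)]
  cases b
  · simp only [Bool.not_false] at h7 h8 ⊢
    simp only [Bool.false_eq_true, if_false]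
    linarith
  · simp only [Bool.not_true] at h7 h8 ⊢
    simp only [if_true]
    linarith

theorem t_DNC (hE : S_EXC) : S_DNC := by
  rintro B S hB hP ⟨q, hq⟩
  refine core hE S hP true fun n hn s hs u u' => ?_
  have h := t_GL3 B Conj (Or.inr (Or.inl rfl)) hB _ _ _ (hq n hn s hs) u u'
  simp only [beq_true]
  exact h

theorem t_DND (hE : S_EXC) : S_DND := by
  rintro B S hB hP ⟨q, hq⟩
  refine core hE S hP false fun n hn s hs u u' => ?_
  have h := t_GL3 B Disj (Or.inr (Or.inr (Or.inl rfl))) hB _ _ _ (hq n hn s hs)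
    (fun i => !u i) (fun i => !u' i)
  simp only [beq_false, Bool.not_and]
  rw [← Bool.not_or]
  congr 1

end Pool.Agent.Y658.OD
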